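import Mathlib

/-!
# Project EO of helper35, job EO-LAT: lattice points in boxes, abstract form
-/

set_option autoImplicit false

open MeasureTheory Finset
open scoped Pointwise

namespace Pool.Agent.Q166.EO

section

variable {W : Type*} [AddCommGroup W] [Module ℚ W] {ι κ : Type*} [Fintype ι]

/-- The region of the coordinates. -/
def Ar (u : ι → W) (ψ : κ → W →ₗ[ℚ] ℂ) (τ : κ → ℝ) (s : ℝ) : Set (ι → ℝ) :=
  {y | ∀ k, ‖∑ j, (y j : ℂ) * ψ k (u j)‖ ≤ τ k * s}

/-- The real coordinates. -/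
def cc (q : W →ₗ[ℚ] (ι → ℚ)) (x : W) : ι → ℝ := fun j => ((q x j : ℚ) : ℝ)

/-- The cube at a point. -/
def cube (q : W →ₗ[ℚ] (ι → ℚ)) (x : W) : Set (ι → ℝ) :=
  Set.pi Set.univ fun j => Set.Ico (cc q x j) (cc q x j + 1)

theorem cube_vol (q : W →ₗ[ℚ] (ι → ℚ)) (x : W) : volume (cube q x) = 1 := by
  unfold cube
  rw [Real.volume_pi_Ico]
  simp

theorem cube_meas (q : W →ₗ[ℚ] (ι → ℚ)) (x : W) : MeasurableSet (cube q x) :=
  MeasurableSet.univ_pi fun _ => measurableSet_Ico

theorem Ar_meas (u : ι → W) (ψ : κ → W →ₗ[ℚ] ℂ) (τ : κ → ℝ) (s : ℝ) :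
    MeasurableSet (Ar u ψ τ s) := by
  refine IsClosed.measurableSet ?_
  have : Ar u ψ τ s = ⋂ k, {y : ι → ℝ | ‖∑ j, (y j : ℂ) * ψ k (u j)‖ ≤ τ k * s} := by
    ext y
    simp [Ar]
  rw [this]
  refine isClosed_iInter fun k => isClosed_le ?_ continuous_const
  fun_prop

theorem Ar_smul (u : ι → W) (ψ : κ → W →ₗ[ℚ] ℂ) (τ : κ → ℝ) (s : ℝ) (hs : 0 < s) :
    Ar u ψ τ s = s • Ar u ψ τ 1 := by
  ext y
  rw [Set.mem_smul_set_iff_inv_smul_mem₀ hs.ne']
  unfold Ar
  refine forall_congr' fun k => ?_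
  have h1 : ∑ j, (((s⁻¹ • y) j : ℝ) : ℂ) * ψ k (u j) = (s⁻¹ : ℂ) * ∑ j, (y j : ℂ) * ψ k (u j) := by
    rw [Finset.mul_sum]
    refine Finset.sum_congr rfl fun j _ => ?_
    simp only [Pi.smul_apply, smul_eq_mul]
    push_cast
    ring
  rw [h1, norm_mul, norm_inv, Complex.norm_real, Real.norm_eq_abs, abs_of_pos hs, mul_one,
    inv_mul_le_iff₀ hs, mul_comm s]

theorem Ar_vol (u : ι → W) (ψ : κ → W →ₗ[ℚ] ℂ) (τ : κ → ℝ) (s : ℝ) (hs : 0 < s) :
    volume (Ar u ψ τ s) = ENNReal.ofReal (s ^ Fintype.card ι) * volume (Ar u ψ τ 1) := by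
  rw [Ar_smul u ψ τ s hs, Measure.addHaar_smul, Module.finrank_fintype_fun_eq_card,
    abs_of_pos (by positivity)]

theorem Ar_shift (u : ι → W) (ψ : κ → W →ₗ[ℚ] ℂ) (τ : κ → ℝ) (D : ℝ)
    (hDu : ∀ k, ∑ j, ‖ψ k (u j)‖ ≤ τ k * D) (y y' : ι → ℝ) (s : ℝ) (hy : y ∈ Ar u ψ τ s)
    (h : ∀ j, |y' j - y j| ≤ 1) : y' ∈ Ar u ψ τ (s + D) := by
  intro k
  have h1 : ∑ j, (y' j : ℂ) * ψ k (u j) = ∑ j, (y j : ℂ) * ψ k (u j) +
      ∑ j, ((y' j - y j : ℝ) : ℂ) * ψ k (u j) := by
    rw [← Finset.sum_add_distrib]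
    refine Finset.sum_congr rfl fun j _ => ?_
    push_cast
    ring
  have h2 : ‖∑ j, ((y' j - y j : ℝ) : ℂ) * ψ k (u j)‖ ≤ τ k * D := by
    refine le_trans (norm_sum_le _ _) (le_trans (Finset.sum_le_sum fun j _ => ?_) (hDu k))
    rw [norm_mul, Complex.norm_real, Real.norm_eq_abs]
    calc |y' j - y j| * ‖ψ k (u j)‖ ≤ 1 * ‖ψ k (u j)‖ :=
          mul_le_mul_of_nonneg_right (h j) (norm_nonneg _)
      _ = _ := one_mul _
  rw [h1, mul_add]
  exact le_trans (norm_add_le _ _) (add_le_add (hy k) h2)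

/-- **Lattice points in boxes.** -/
theorem boxcount (u : ι → W) (q : W →ₗ[ℚ] (ι → ℚ)) (L : AddSubgroup W)
    (hL : ∀ x ∈ L, x = ∑ j, q x j • u j) (hu : ∀ j, u j ∈ L)
    (hq : ∀ z : ι → ℤ, q (∑ j, z j • u j) = fun j => (z j : ℚ))
    (ψ : κ → W →ₗ[ℚ] ℂ) (τ : κ → ℝ) (_hτ : ∀ k, 0 < τ k)
    (hfin : ∀ B : ℝ, {x | x ∈ L ∧ ∀ k, ‖ψ k x‖ ≤ τ k * B}.Finite)
    (D : ℝ) (hD : 1 ≤ D) (hDu : ∀ k, ∑ j, ‖ψ k (u j)‖ ≤ τ k * D) :
    ∃ M : ℝ, 0 < M ∧ ∀ B : ℝ, D < B →
      M * (B - D) ^ Fintype.card ι ≤ ({x | x ∈ L ∧ ∀ k, ‖ψ k x‖ ≤ τ k * B}.ncard : ℝ) ∧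
      ({x | x ∈ L ∧ ∀ k, ‖ψ k x‖ ≤ τ k * B}.ncard : ℝ) ≤ M * (B + D) ^ Fintype.card ι := by
  classical
  -- the functionals in coordinates
  have hψ : ∀ x ∈ L, ∀ k, ψ k x = ∑ j, ((cc q x j : ℝ) : ℂ) * ψ k (u j) := by
    intro x hx k
    conv_lhs => rw [hL x hx]
    rw [map_sum]
    refine Finset.sum_congr rfl fun j _ => ?_
    rw [map_smul, Rat.smul_def]
    unfold cc
    push_cast
    rfl
  have hbox : ∀ x ∈ L, ∀ B : ℝ, (∀ k, ‖ψ k x‖ ≤ τ k * B) ↔ cc q x ∈ Ar u ψ τ B := by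
    intro x hx B
    unfold Ar
    refine forall_congr' fun k => ?_
    rw [hψ x hx k]
  set G : ℝ → Finset W := fun B => (hfin B).toFinset with hG
  have hGm : ∀ B x, x ∈ G B ↔ x ∈ L ∧ cc q x ∈ Ar u ψ τ B := by
    intro B x
    rw [hG]
    simp only [Set.Finite.mem_toFinset, Set.mem_ofPred_eq]
    constructor
    · rintro ⟨h1, h2⟩
      exact ⟨h1, (hbox x h1 B).mp h2⟩
    · rintro ⟨h1, h2⟩
      exact ⟨h1, (hbox x h1 B).mpr h2⟩
  have hGc : ∀ B, ({x | x ∈ L ∧ ∀ k, ‖ψ k x‖ ≤ τ k * B}.ncard : ℝ) = ((G B).card : ℝ) := by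
    intro B
    rw [hG]
    simp only
    rw [Set.ncard_eq_toFinset_card _ (hfin B)]
  -- the reduction
  set fl : W → W := fun x => ∑ j, ⌊q x j⌋ • u j with hfl
  have hflL : ∀ x, fl x ∈ L := fun x => AddSubgroup.sum_mem _ fun j _ =>
    AddSubgroup.zsmul_mem _ (hu j) _
  have hqfl : ∀ x j, q (x - fl x) j = q x j - ⌊q x j⌋ := by
    intro x j
    rw [map_sub, hfl]
    simp only
    rw [hq, Pi.sub_apply]
  set F : Finset W := (G D).filter fun e => ∀ j, 0 ≤ q e j ∧ q e j < 1 with hF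
  have hFm : ∀ e, e ∈ F ↔ e ∈ L ∧ ∀ j, 0 ≤ q e j ∧ q e j < 1 := by
    intro e
    rw [hF, Finset.mem_filter, hGm]
    constructor
    · rintro ⟨⟨h1, -⟩, h3⟩
      exact ⟨h1, h3⟩
    · rintro ⟨h1, h3⟩
      refine ⟨⟨h1, ?_⟩, h3⟩
      have h0 : (fun _ => 0 : ι → ℝ) ∈ Ar u ψ τ 0 := by
        intro k
        simp
      have h4 := Ar_shift u ψ τ D hDu (fun _ => 0) (cc q e) 0 h0 (fun j => by
        have h5 := h3 j
        have h6 : (0 : ℝ) ≤ cc q e j := by
          unfold cc
          exact_mod_cast h5.1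
        have h7 : cc q e j < 1 := by
          unfold cc
          exact_mod_cast h5.2
        rw [sub_zero, abs_of_nonneg h6]
        exact h7.le)
      rwa [zero_add] at h4
  have hred : ∀ x ∈ L, x - fl x ∈ F := by
    intro x hx
    rw [hFm]
    refine ⟨AddSubgroup.sub_mem _ hx (hflL x), fun j => ?_⟩
    rw [hqfl]
    exact ⟨sub_nonneg.mpr (Int.floor_le _), by linarith [Int.lt_floor_add_one (q x j)]⟩
  have h0F : (0 : W) ∈ F := by
    rw [hFm]
    refine ⟨AddSubgroup.zero_mem _, fun j => ?_⟩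
    rw [map_zero]
    simp
  have hF0 : 0 < F.card := Finset.card_pos.mpr ⟨0, h0F⟩
  -- the fibres
  set Fib : ℝ → W → Finset W := fun B e => (G B).filter fun x => x - fl x = e with hFib
  have hcardG : ∀ B, (G B).card = ∑ e ∈ F, (Fib B e).card := by
    intro B
    exact Finset.card_eq_sum_card_fiberwise fun x hx => hred x ((hGm B x).mp hx).1
  -- upper bound for a fibre
  have hup : ∀ B e, ((Fib B e).card : ENNReal) ≤ volume (Ar u ψ τ (B + D)) := by
    intro B e
    have hdis : Set.PairwiseDisjoint (↑(Fib B e) : Set W) (cube q) := by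
      intro x hx x' hx' hne
      rw [Function.onFun, Set.disjoint_left]
      intro y hy hy'
      apply hne
      have hx1 : x - fl x = e := (Finset.mem_filter.mp hx).2
      have hx1' : x' - fl x' = e := (Finset.mem_filter.mp hx').2
      have hfloor : ∀ j, ⌊q x j⌋ = ⌊q x' j⌋ := by
        intro j
        have h1 := hqfl x j
        have h2 := hqfl x' j
        rw [hx1] at h1
        rw [hx1'] at h2
        have h3 := hy j (Set.mem_univ j)
        have h4 := hy' j (Set.mem_univ j)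
        have h5 : (cc q x j - cc q x' j : ℝ) = ((⌊q x j⌋ - ⌊q x' j⌋ : ℤ) : ℝ) := by
          have h6 : q x j - q x' j = ((⌊q x j⌋ - ⌊q x' j⌋ : ℤ) : ℚ) := by
            push_cast
            linarith
          unfold cc
          exact_mod_cast h6
        have h7 : |((⌊q x j⌋ - ⌊q x' j⌋ : ℤ) : ℝ)| < 1 := by
          rw [← h5, abs_lt]
          constructor
          · linarith [h3.1, h3.2, h4.1, h4.2]
          · linarith [h3.1, h3.2, h4.1, h4.2]
        have h8 : |⌊q x j⌋ - ⌊q x' j⌋| < 1 := by exact_mod_cast h7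
        have h9 : ⌊q x j⌋ - ⌊q x' j⌋ = 0 := Int.abs_lt_one_iff.mp h8
        linarith
      have h10 : fl x = fl x' := by
        rw [hfl]
        simp only
        exact Finset.sum_congr rfl fun j _ => by rw [hfloor j]
      have h11 : x = e + fl x := by
        rw [← hx1]
        abel
      have h12 : x' = e + fl x' := by
        rw [← hx1']
        abel
      rw [h11, h12, h10]
    calc ((Fib B e).card : ENNReal) = ∑ x ∈ Fib B e, volume (cube q x) := by
          simp [cube_vol]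
      _ = volume (⋃ x ∈ Fib B e, cube q x) :=
          (measure_biUnion_finset hdis fun x _ => cube_meas q x).symm
      _ ≤ volume (Ar u ψ τ (B + D)) := by
          refine measure_mono (Set.iUnion₂_subset fun x hx y hy => ?_)
          have h1 := ((hGm B x).mp (Finset.mem_filter.mp hx).1).2
          refine Ar_shift u ψ τ D hDu (cc q x) y B h1 fun j => ?_
          have h2 := hy j (Set.mem_univ j)
          rw [abs_le]
          constructor
          · linarith [h2.1, h2.2]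
          · linarith [h2.1, h2.2]
  -- lower bound for a fibre
  have hlo : ∀ B, ∀ e ∈ F, volume (Ar u ψ τ (B - D)) ≤ ((Fib B e).card : ENNReal) := by
    intro B e he
    have hcov : Ar u ψ τ (B - D) ⊆ ⋃ x ∈ Fib B e, cube q x := by
      intro y hy
      have he1 := (hFm e).mp he
      set z : ι → ℤ := fun j => ⌊y j - cc q e j⌋ with hz
      set x : W := e + ∑ j, z j • u j with hx
      have hxL : x ∈ L := AddSubgroup.add_mem _ he1.1 (AddSubgroup.sum_mem _ fun j _ =>
        AddSubgroup.zsmul_mem _ (hu j) _)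
      have hqx : ∀ j, q x j = q e j + z j := by
        intro j
        rw [hx, map_add, hq]
        rfl
      have hcx : ∀ j, cc q x j = cc q e j + z j := by
        intro j
        have := hqx j
        unfold cc
        rw [this]
        push_cast
        ring
      have hy1 : ∀ j, cc q x j ≤ y j ∧ y j < cc q x j + 1 := by
        intro j
        rw [hcx]
        have h1 := Int.floor_le (y j - cc q e j)
        have h2 := Int.lt_floor_add_one (y j - cc q e j)
        have h3 : (z j : ℝ) = (⌊y j - cc q e j⌋ : ℝ) := rfl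
        rw [h3]
        constructor <;> linarith
      have hxG : x ∈ G B := by
        rw [hGm]
        refine ⟨hxL, ?_⟩
        have h1 := Ar_shift u ψ τ D hDu y (cc q x) (B - D) hy (fun j => by
          have h2 := hy1 j
          rw [abs_le]
          constructor <;> linarith [h2.1, h2.2])
        rwa [sub_add_cancel] at h1
      have hxe : x - fl x = e := by
        have h1 : fl x = ∑ j, z j • u j := by
          rw [hfl]
          simp only
          refine Finset.sum_congr rfl fun j _ => ?_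
          have h2 : ⌊q x j⌋ = z j := by
            rw [hqx, Int.floor_add_intCast]
            have h3 : ⌊q e j⌋ = 0 := by
              rw [Int.floor_eq_zero_iff]
              exact ⟨(he1.2 j).1, (he1.2 j).2⟩
            rw [h3, zero_add]
          rw [h2]
        rw [h1, hx]
        abel
      refine Set.mem_iUnion₂.mpr ⟨x, Finset.mem_filter.mpr ⟨hxG, hxe⟩, fun j _ => hy1 j⟩
    calc volume (Ar u ψ τ (B - D)) ≤ volume (⋃ x ∈ Fib B e, cube q x) := measure_mono hcov
      _ ≤ ∑ x ∈ Fib B e, volume (cube q x) := measure_biUnion_finset_le _ _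
      _ = ((Fib B e).card : ENNReal) := by simp [cube_vol]
  -- the volume of the unit region
  have hvfin : volume (Ar u ψ τ 1) ≠ ⊤ := by
    have h1 := hlo (1 + D) 0 h0F
    rw [add_sub_cancel_right] at h1
    exact ne_top_of_le_ne_top (ENNReal.natCast_ne_top _) h1
  have hvpos : 0 < volume (Ar u ψ τ 1) := by
    have hD0 : 0 < D := by linarith
    have hsub : Set.pi Set.univ (fun _ : ι => Set.Ico (0 : ℝ) (1 / D)) ⊆ Ar u ψ τ 1 := by
      intro y hy k
      have h1 : ‖∑ j, (y j : ℂ) * ψ k (u j)‖ ≤ ∑ j, (1 / D) * ‖ψ k (u j)‖ := by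
        refine le_trans (norm_sum_le _ _) (Finset.sum_le_sum fun j _ => ?_)
        rw [norm_mul, Complex.norm_real, Real.norm_eq_abs]
        have h2 := hy j (Set.mem_univ j)
        rw [abs_of_nonneg h2.1]
        exact mul_le_mul_of_nonneg_right h2.2.le (norm_nonneg _)
      rw [← Finset.mul_sum] at h1
      refine le_trans h1 ?_
      have h3 := mul_le_mul_of_nonneg_left (hDu k) (show 0 ≤ 1 / D by positivity)
      refine le_trans h3 (le_of_eq ?_)
      field_simp
    refine lt_of_lt_of_le ?_ (measure_mono hsub)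
    rw [Real.volume_pi_Ico]
    simp only [sub_zero, Finset.prod_const, Finset.card_univ]
    have : 0 < ENNReal.ofReal (1 / D) := ENNReal.ofReal_pos.mpr (by positivity)
    exact ENNReal.pow_pos this _
  obtain ⟨v, hv⟩ : ∃ v : ℝ, v = (volume (Ar u ψ τ 1)).toReal := ⟨_, rfl⟩
  have hv0 : 0 < v := by
    rw [hv]
    exact ENNReal.toReal_pos hvpos.ne' hvfin
  have hvol : ∀ s : ℝ, 0 < s → (volume (Ar u ψ τ s)).toReal = s ^ Fintype.card ι * v ∧
      volume (Ar u ψ τ s) ≠ ⊤ := by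
    intro s hs
    rw [Ar_vol u ψ τ s hs]
    refine ⟨?_, ENNReal.mul_ne_top ENNReal.ofReal_ne_top hvfin⟩
    rw [ENNReal.toReal_mul, ENNReal.toReal_ofReal (by positivity), hv]
  refine ⟨F.card * v, mul_pos (by exact_mod_cast hF0) hv0, fun B hB => ?_⟩
  rw [hGc, hcardG]
  push_cast
  have hBD : 0 < B - D := by linarith
  have hBD' : 0 < B + D := by linarith
  constructor
  · have h1 : ∀ e ∈ F, (B - D) ^ Fintype.card ι * v ≤ ((Fib B e).card : ℝ) := by
      intro e he
      have h2 := hlo B e he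
      have h3 := ENNReal.toReal_mono (ENNReal.natCast_ne_top _) h2
      rw [(hvol _ hBD).1, ENNReal.toReal_natCast] at h3
      exact h3
    have h4 := Finset.sum_le_sum h1
    rw [Finset.sum_const, nsmul_eq_mul] at h4
    refine le_trans (le_of_eq ?_) h4
    ring
  · have h1 : ∀ e ∈ F, ((Fib B e).card : ℝ) ≤ (B + D) ^ Fintype.card ι * v := by
      intro e _
      have h2 := hup B e
      have h3 := ENNReal.toReal_mono (hvol _ hBD').2 h2
      rw [(hvol _ hBD').1, ENNReal.toReal_natCast] at h3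
      exact h3
    have h4 := Finset.sum_le_sum h1
    rw [Finset.sum_const, nsmul_eq_mul] at h4
    refine le_trans h4 (le_of_eq ?_)
    ring

end

end Pool.Agent.Q166.EO
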