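import Pool.Agent.Q166.EO.GG2

/-!
# Project EO of helper35, job EO-GG
-/

set_option autoImplicit false
set_option linter.unusedSectionVars false

open NumberField Finset MeasureTheory Filter
open Pool.Agent.Q35.MM (bx dg mem_bx Pts)
open Pool.Agent.Q35.SM (Vs)
open Pool.Agent.Q35.EO

namespace Pool.Agent.Q166.EO

theorem lim_lemma {ι : Type} (g : (ι → ℕ) → ℝ) (C η : ℝ) (_hC : 0 ≤ C) (hη : 0 < η)
    (hg0 : ∀ b : ι → ℕ, (∀ l, 1 ≤ b l) → 0 ≤ g b)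
    (h : ∀ (b b' : ι → ℕ) (m : ℕ), 1 ≤ m → (∀ l, m ≤ b l) → (∀ l, m ≤ b' l) →
      |g b - g b'| ≤ C * (m : ℝ) ^ (-η)) :
    ∃ R : ℝ, 0 ≤ R ∧ ∀ (b : ι → ℕ) (m : ℕ), 1 ≤ m → (∀ l, m ≤ b l) →
      |g b - R| ≤ C * (m : ℝ) ^ (-η) := by
  set a : ℕ → ℝ := fun k => g fun _ => k + 1 with ha
  have hcau : CauchySeq a := by
    refine cauchySeq_of_le_tendsto_0 (fun k : ℕ => C * ((k + 1 : ℕ) : ℝ) ^ (-η)) ?_ ?_
    · intro i j k hi hj
      rw [Real.dist_eq]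
      exact h _ _ (k + 1) (by omega) (fun _ => by omega) (fun _ => by omega)
    · have h1 : Tendsto (fun k : ℕ => ((k + 1 : ℕ) : ℝ) ^ (-η)) atTop (nhds 0) :=
        ((tendsto_rpow_neg_atTop hη).comp tendsto_natCast_atTop_atTop).comp (tendsto_add_atTop_nat 1)
      have h2 := h1.const_mul C
      rwa [mul_zero] at h2
  obtain ⟨R, hR⟩ := cauchySeq_tendsto_of_complete hcau
  refine ⟨R, ge_of_tendsto' hR fun k => hg0 _ fun _ => by omega, fun b m hm hb => ?_⟩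
  have h1 : Tendsto (fun k => |g b - a k|) atTop (nhds |g b - R|) := (hR.const_sub (g b)).abs
  refine le_of_tendsto h1 ?_
  filter_upwards [eventually_ge_atTop m] with k hk
  exact h b _ m hm hb fun _ => by omega

theorem min_pos {α : Type*} (S : Finset α) (f : α → ℝ) (hf : ∀ x ∈ S, 0 < f x) :
    ∃ η : ℝ, 0 < η ∧ ∀ x ∈ S, η ≤ f x := by
  classical
  induction S using Finset.induction_on with
  | empty => exact ⟨1, one_pos, fun x hx => absurd hx (by simp)⟩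
  | insert a S ha ih =>
    obtain ⟨η, hη, h⟩ := ih fun x hx => hf x (Finset.mem_insert_of_mem hx)
    refine ⟨min η (f a), lt_min hη (hf a (Finset.mem_insert_self _ _)), fun x hx => ?_⟩
    rcases Finset.mem_insert.mp hx with rfl | hx
    · exact min_le_right _ _
    · exact (min_le_left _ _).trans (h x hx)

theorem gg (hUN : S_UN) (hNO : Pool.Agent.Q35.LO.S_NO) : S_GG := by
  intro K _ _ ι _ _ n E U h1 h2 h3
  classical
  obtain ⟨Ω, mΩ, μ, R0, c0, W, T, hμ, hc0, hW, hR0, hT, hTm, hun⟩ := hUN K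
  refine ⟨fun β => c1 hNO U fun _ => β, ?_⟩
  obtain ⟨IS, hIS⟩ : ∃ IS : Finset (ι → Ideal (𝓞 K)), IS = Fintype.piFinset fun _ => R0 := ⟨_, rfl⟩
  have hISm : ∀ I ∈ IS, ∀ l, I l ∈ R0 := by
    intro I hI l
    rw [hIS, Fintype.mem_piFinset] at hI
    exact hI l
  set ν : Measure (ι → Ω) := Measure.pi fun _ => μ with hν
  set tt : (ι → Ideal (𝓞 K)) → (ι → Ω) → ι → (K →+* ℂ) → ℝ := fun I ζ l => T (I l) (ζ l) with htt
  have hshp : ∀ I ∈ IS, ∀ ζ l, Shp c0 (tt I ζ l) := fun I hI ζ l => hT _ (hISm I hI l) _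
  -- decomposition
  have hdec : ∀ b : ι → ℕ, ∃ X : Finset (Pts K n),
      (∀ I ∈ IS, ∀ ζ, (cntg U I (tt I ζ) b : ℝ) =
        ∑ x ∈ X, ∏ l, ((kap K (I l) (T (I l) (ζ l)) (n l + 1) (x l).rep (b l) : ℕ) : ℝ)) ∧
      GG (YU U) hh (Units.rank K) (dg K) b = ∑ x ∈ X, ∏ l, ∑ᶠ 𝔟 ∈ {𝔟 : Ideal (𝓞 K) | 𝔟 ≠ ⊥ ∧
        (Ideal.absNorm 𝔟 : ℝ) * Height.mulHeight (x l).rep ≤ (b l : ℝ) ^ dg K},
        Real.log ((b l : ℝ) ^ dg K / ((Ideal.absNorm 𝔟 : ℝ) * Height.mulHeight (x l).rep)) ^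
          Units.rank K := by
    intro b
    obtain ⟨X, hX, hX2, hX3⟩ := exX hNO U c0 (dg K) b
    refine ⟨X, fun I hI ζ => ?_, gg_sum hNO U _ _ b X hX hX3⟩
    have h4 := cnt_fib U h1 h2 I (tt I ζ) b X hX (hX2 I (tt I ζ) (hshp I hI ζ))
    rw [h4]
    push_cast
    rfl
  have hkint : ∀ I ∈ IS, ∀ (x : Pts K n) (b : ι → ℕ) l, Integrable (fun ζ : Ω =>
      ((kap K (I l) (T (I l) ζ) (n l + 1) (x l).rep (b l) : ℕ) : ℝ)) μ := fun I hI x b l =>
    kap_int μ (I l) (T (I l)) c0 (hT _ (hISm I hI l)) (hTm _) _ _ (x l).rep_nonzero _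
  have hint : ∀ I ∈ IS, ∀ b, Integrable (fun ζ => (cntg U I (tt I ζ) b : ℝ)) ν := by
    intro I hI b
    obtain ⟨X, hX, -⟩ := hdec b
    have h5 : (fun ζ => (cntg U I (tt I ζ) b : ℝ)) = fun ζ =>
        ∑ x ∈ X, ∏ l, ((kap K (I l) (T (I l) (ζ l)) (n l + 1) (x l).rep (b l) : ℕ) : ℝ) :=
      funext fun ζ => hX I hI ζ
    rw [h5]
    refine integrable_finsetSum _ fun x _ => ?_
    exact Integrable.fintype_prod (f := fun l (ζ : Ω) =>
      ((kap K (I l) (T (I l) ζ) (n l + 1) (x l).rep (b l) : ℕ) : ℝ)) fun l => hkint I hI x b l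
  have hident : ∀ b : ι → ℕ, (∀ l, 1 ≤ b l) → ∑ I ∈ IS, ∫ ζ, (cntg U I (tt I ζ) b : ℝ) ∂ν =
      W ^ Fintype.card ι * GG (YU U) hh (Units.rank K) (dg K) b := by
    intro b hb
    obtain ⟨X, hX, hXG⟩ := hdec b
    have h5 : ∀ I ∈ IS, ∫ ζ, (cntg U I (tt I ζ) b : ℝ) ∂ν = ∑ x ∈ X, ∏ l, ∫ ζ : Ω,
        ((kap K (I l) (T (I l) ζ) (n l + 1) (x l).rep (b l) : ℕ) : ℝ) ∂μ := by
      intro I hI
      simp only [hX I hI]
      rw [integral_finsetSum]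
      · refine Finset.sum_congr rfl fun x _ => ?_
        exact integral_fintype_prod_eq_prod (f := fun l (ζ : Ω) =>
          ((kap K (I l) (T (I l) ζ) (n l + 1) (x l).rep (b l) : ℕ) : ℝ))
      · intro x _
        exact Integrable.fintype_prod (f := fun l (ζ : Ω) =>
          ((kap K (I l) (T (I l) ζ) (n l + 1) (x l).rep (b l) : ℕ) : ℝ)) fun l => hkint I hI x b l
    rw [Finset.sum_congr rfl h5, Finset.sum_comm, hXG, Finset.mul_sum]
    refine Finset.sum_congr rfl fun x _ => ?_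
    rw [hIS, ← Finset.prod_univ_sum (fun _ => R0) fun l J => ∫ ζ : Ω,
      ((kap K J (T J ζ) (n l + 1) (x l).rep (b l) : ℕ) : ℝ) ∂μ]
    rw [← Finset.card_univ, ← Finset.prod_const, ← Finset.prod_mul_distrib]
    refine Finset.prod_congr rfl fun l _ => ?_
    exact hun (n l + 1) (x l).rep (x l).rep_nonzero (b l) (hb l)
  -- the estimates
  have h3' : ∀ I ∈ IS, ∃ C η : ℝ, 0 ≤ C ∧ 0 < η ∧
      ∀ t : ι → (K →+* ℂ) → ℝ, (∀ l, Shp c0 (t l)) → ∃ R : ℝ, 0 ≤ R ∧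
        ∀ (b : ι → ℕ) (m : ℕ), 1 ≤ m → (∀ l, m ≤ b l) →
          |(cntg U I t b : ℝ) - R * ∏ l, (b l : ℝ) ^ E l| ≤
            C * (m : ℝ) ^ (-η) * ∏ l, (b l : ℝ) ^ E l :=
    fun I hI => h3 I c0 (fun l => hR0 _ (hISm I hI l)) hc0
  choose! Cf ηf hCf hηf hest using h3'
  obtain ⟨η, hη, hηle⟩ := min_pos IS ηf hηf
  set V0 : ℝ := ν.real Set.univ with hV0
  have hV00 : 0 ≤ V0 := measureReal_nonneg
  set p : (ι → ℕ) → ℝ := fun b => ∏ l, (b l : ℝ) ^ E l with hp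
  have hp0 : ∀ b : ι → ℕ, (∀ l, 1 ≤ b l) → 0 < p b := by
    intro b hb
    refine Finset.prod_pos fun l _ => pow_pos ?_ _
    exact_mod_cast hb l
  have hdiff : ∀ I ∈ IS, ∀ (b b' : ι → ℕ) (m : ℕ), 1 ≤ m → (∀ l, m ≤ b l) → (∀ l, m ≤ b' l) →
      |(∫ ζ, (cntg U I (tt I ζ) b : ℝ) ∂ν) / p b - (∫ ζ, (cntg U I (tt I ζ) b' : ℝ) ∂ν) / p b'| ≤
        2 * Cf I * (m : ℝ) ^ (-η) * V0 := by
    intro I hI b b' m hm hb hb'
    have hpb := hp0 b fun l => le_trans hm (hb l)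
    have hpb' := hp0 b' fun l => le_trans hm (hb' l)
    have hm1 : (1 : ℝ) ≤ m := by exact_mod_cast hm
    have hmη : (m : ℝ) ^ (-ηf I) ≤ (m : ℝ) ^ (-η) :=
      Real.rpow_le_rpow_of_exponent_le hm1 (by linarith [hηle I hI])
    rw [← integral_div, ← integral_div, ← integral_sub ((hint I hI b).div_const _)
      ((hint I hI b').div_const _)]
    have hb3 : ∀ ζ, ‖(cntg U I (tt I ζ) b : ℝ) / p b - (cntg U I (tt I ζ) b' : ℝ) / p b'‖ ≤
        2 * Cf I * (m : ℝ) ^ (-η) := fun ζ => ?_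
    · exact norm_integral_le_of_norm_le_const (μ := ν) (Eventually.of_forall hb3)
    obtain ⟨R, -, hR⟩ := hest I hI (tt I ζ) (hshp I hI ζ)
    have e1 := hR b m hm hb
    have e2 := hR b' m hm hb'
    have key : ∀ c : ι → ℕ, 0 < p c → |(cntg U I (tt I ζ) c : ℝ) - R * p c| ≤
        Cf I * (m : ℝ) ^ (-ηf I) * p c →
        |(cntg U I (tt I ζ) c : ℝ) / p c - R| ≤ Cf I * (m : ℝ) ^ (-η) := by
      intro c hc hcc
      have e3 : (cntg U I (tt I ζ) c : ℝ) / p c - R =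
          ((cntg U I (tt I ζ) c : ℝ) - R * p c) / p c := by
        field_simp
      rw [e3, abs_div, abs_of_pos hc, div_le_iff₀ hc]
      refine hcc.trans ?_
      have := hCf I hI
      gcongr
    have k1 := key b hpb e1
    have k2 := key b' hpb' e2
    rw [Real.norm_eq_abs]
    have e4 : (cntg U I (tt I ζ) b : ℝ) / p b - (cntg U I (tt I ζ) b' : ℝ) / p b' =
        ((cntg U I (tt I ζ) b : ℝ) / p b - R) - ((cntg U I (tt I ζ) b' : ℝ) / p b' - R) := by ring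
    rw [e4]
    refine (abs_sub _ _).trans ?_
    linarith
  -- the mean
  set g : (ι → ℕ) → ℝ := fun b => GG (YU U) hh (Units.rank K) (dg K) b / p b with hg
  have hWs : 0 < W ^ Fintype.card ι := pow_pos hW _
  have hgI : ∀ b : ι → ℕ, (∀ l, 1 ≤ b l) → g b =
      (∑ I ∈ IS, (∫ ζ, (cntg U I (tt I ζ) b : ℝ) ∂ν) / p b) / W ^ Fintype.card ι := by
    intro b hb
    rw [← Finset.sum_div, hident b hb, hg]
    have := hp0 b hb
    field_simp
  obtain ⟨C', hC'⟩ : ∃ C' : ℝ, C' = (∑ I ∈ IS, 2 * Cf I * V0) / W ^ Fintype.card ι := ⟨_, rfl⟩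
  have hC'0 : 0 ≤ C' := by
    rw [hC']
    refine div_nonneg (Finset.sum_nonneg fun I hI => ?_) hWs.le
    have := hCf I hI
    positivity
  have hgdiff : ∀ (b b' : ι → ℕ) (m : ℕ), 1 ≤ m → (∀ l, m ≤ b l) → (∀ l, m ≤ b' l) →
      |g b - g b'| ≤ C' * (m : ℝ) ^ (-η) := by
    intro b b' m hm hb hb'
    rw [hgI b fun l => le_trans hm (hb l), hgI b' fun l => le_trans hm (hb' l), ← sub_div,
      ← Finset.sum_sub_distrib, abs_div, abs_of_pos hWs, div_le_iff₀ hWs]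
    refine (Finset.abs_sum_le_sum_abs _ _).trans ?_
    refine (Finset.sum_le_sum fun I hI => hdiff I hI b b' m hm hb hb').trans (le_of_eq ?_)
    rw [hC', div_mul_eq_mul_div, div_mul_cancel₀ _ hWs.ne', Finset.sum_mul]
    exact Finset.sum_congr rfl fun I _ => by ring
  have hg0 : ∀ b : ι → ℕ, (∀ l, 1 ≤ b l) → 0 ≤ g b := by
    intro b hb
    rw [hgI b hb]
    refine div_nonneg (Finset.sum_nonneg fun I _ => div_nonneg ?_ (hp0 b hb).le) hWs.le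
    exact integral_nonneg fun ζ => Nat.cast_nonneg _
  obtain ⟨R, hR0', hR⟩ := lim_lemma g C' η hC'0 hη hg0 hgdiff
  refine ⟨R, C', η, hR0', hC'0, hη, fun b m hm hb => ?_⟩
  have hpb := hp0 b fun l => le_trans hm (hb l)
  have h6 := hR b m hm hb
  have h7 : GG (YU U) hh (Units.rank K) (dg K) b - R * ∏ l, (b l : ℝ) ^ E l = (g b - R) * p b := by
    rw [hg, sub_mul]
    simp only
    rw [div_mul_cancel₀ _ hpb.ne']
  rw [h7, abs_mul, abs_of_pos hpb]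
  exact mul_le_mul_of_nonneg_right h6 hpb.le

end Pool.Agent.Q166.EO
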