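import Pool.Agent.Q35.EO.Stm2

/-!
# Project EO of helper35, job EO-GG, part 1: decomposition of the boxes
-/

set_option autoImplicit false
set_option linter.unusedSectionVars false

open NumberField Finset
open Pool.Agent.Q35.MM (bx dg mem_bx Pts)
open Pool.Agent.Q35.SM (Vs)
open Pool.Agent.Q35.EO

namespace Pool.Agent.Q166.EO

section

variable (K : Type) [Field K] [NumberField K]

/-- The number of the nonzero multiples in the box. -/
noncomputable def kap (J : Ideal (𝓞 K)) (t : (K →+* ℂ) → ℝ) (m : ℕ) (v : Fin m → K) (b : ℕ) : ℕ :=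
  {τ : K | τ ≠ 0 ∧ τ • v ∈ bxg K J t m b}.ncard

variable {K}

theorem smul_inj {m : ℕ} (v : Fin m → K) (hv : v ≠ 0) : Function.Injective fun τ : K => τ • v := by
  intro τ τ' h
  obtain ⟨a, ha⟩ := Function.ne_iff.mp hv
  have h1 := congrFun h a
  simp only [Pi.smul_apply, smul_eq_mul] at h1
  exact mul_right_cancel₀ ha h1

theorem mul_fin {m : ℕ} (v : Fin m → K) (hv : v ≠ 0) (S : Finset (Fin m → K)) :
    {τ : K | τ ≠ 0 ∧ τ • v ∈ S}.Finite := by
  refine Set.Finite.of_injOn (f := fun τ : K => τ • v) (t := (↑S : Set (Fin m → K))) ?_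
    (smul_inj v hv).injOn (Finset.finite_toSet S)
  intro τ hτ
  exact hτ.2

theorem bxg_sub_bx {J : Ideal (𝓞 K)} {c0 : ℝ} {t : (K →+* ℂ) → ℝ} (ht : Shp c0 t) {m b B : ℕ}
    (hB : c0 * b ≤ B) {x : Fin m → K} (hx : x ∈ bxg K J t m b) : x ∈ bx K m B := by
  rw [mem_bxg] at hx
  rw [mem_bx]
  intro a
  obtain ⟨⟨y, -, hy⟩, h2⟩ := hx a
  refine ⟨?_, fun φ => (h2 φ).trans ?_⟩
  · rw [← hy]
    exact y.isIntegral_coe
  · have : t φ * b ≤ c0 * b := mul_le_mul_of_nonneg_right (ht φ).2 (Nat.cast_nonneg _)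
    exact this.trans hB

/-- The points of the projective space with a representative in a finite set. -/
theorem pts_fin {m : ℕ} (S : Finset (Fin m → K)) :
    {p : Projectivization K (Fin m → K) | ∃ τ : K, τ ≠ 0 ∧ τ • p.rep ∈ S}.Finite := by
  classical
  have key : ∀ p : Projectivization K (Fin m → K), (∃ τ : K, τ ≠ 0 ∧ τ • p.rep ∈ S) →
      ∃ τ : K, τ ≠ 0 ∧ τ • p.rep ∈ S := fun p hp => hp
  choose! t ht0 ht1 using key
  refine Set.Finite.of_injOn (f := fun p => t p • p.rep) (t := (↑S : Set (Fin m → K)))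
    (fun p hp => ht1 p hp) ?_ (Finset.finite_toSet S)
  intro p hp q hq hpq
  have h1 : t p • p.rep = t q • q.rep := hpq
  rw [← p.mk_rep, ← q.mk_rep]
  rw [Projectivization.mk_eq_mk_iff']
  refine ⟨(t p)⁻¹ * t q, ?_⟩
  rw [mul_smul, ← h1, smul_smul, inv_mul_cancel₀ (ht0 p hp), one_smul]

variable {ι : Type} [Fintype ι] [DecidableEq ι] {n : ι → ℕ}

open Classical in
/-- The point of a family of vectors. -/
noncomputable def pt (P : Vs K n) : Pts K n :=
  if h : ∀ l, P l ≠ 0 then fun l => Projectivization.mk K (P l) (h l) else Classical.arbitrary _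

theorem pt_eq (P : Vs K n) (h : ∀ l, P l ≠ 0) :
    pt P = fun l => Projectivization.mk K (P l) (h l) := by
  unfold pt
  rw [dif_pos h]

/-- Decomposition of the vectors in the boxes along the points. -/
theorem cnt_fib (U : Vs K n → Prop)
    (h1 : ∀ a : ι → K, (∀ i, a i ≠ 0) → ∀ P, U P → U fun i => a i • P i)
    (h2 : ∀ P, U P → ∀ i, P i ≠ 0) (I : ι → Ideal (𝓞 K)) (t : ι → (K →+* ℂ) → ℝ) (b : ι → ℕ)
    (X : Finset (Pts K n)) (hX : ∀ x ∈ X, U fun i => (x i).rep)
    (hX2 : ∀ x : Pts K n, (U fun i => (x i).rep) →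
      (∀ l, ∃ τ : K, τ ≠ 0 ∧ τ • (x l).rep ∈ bxg K (I l) (t l) (n l + 1) (b l)) → x ∈ X) :
    cntg U I t b = ∑ x ∈ X, ∏ l, kap K (I l) (t l) (n l + 1) (x l).rep (b l) := by
  classical
  -- the multiples
  have hrepr : ∀ P : Vs K n, ∀ h : (∀ l, P l ≠ 0), ∀ l, ∃ τ : K, τ ≠ 0 ∧
      P l = τ • (pt P l).rep := by
    intro P h l
    rw [pt_eq P h]
    obtain ⟨a, ha⟩ := Projectivization.exists_smul_eq_mk_rep K (P l) (h l)
    refine ⟨((a⁻¹ : Kˣ) : K), (a⁻¹).ne_zero, ?_⟩
    simp only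
    rw [← ha]
    have : ((a⁻¹ : Kˣ) : K) • (a • P l) = (a⁻¹ : Kˣ) • (a • P l) := rfl
    rw [this, inv_smul_smul]
  set S : Finset (Vs K n) := (Fintype.piFinset fun l => bxg K (I l) (t l) (n l + 1) (b l)).filter
    fun P => U P with hS
  have hScard : cntg U I t b = S.card := by
    unfold cntg
    rw [hS]
  have hmaps : ∀ P ∈ S, pt P ∈ X := by
    intro P hP
    rw [hS, Finset.mem_filter, Fintype.mem_piFinset] at hP
    have hne := h2 P hP.2
    choose τ hτ0 hτ using hrepr P hne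
    have hU : U fun i => (pt P i).rep := by
      have h3 := h1 (fun i => (τ i)⁻¹) (fun i => inv_ne_zero (hτ0 i)) P hP.2
      have h4 : (fun i => (τ i)⁻¹ • P i) = fun i => (pt P i).rep := by
        funext i
        conv_lhs => rw [hτ i]
        rw [smul_smul, inv_mul_cancel₀ (hτ0 i), one_smul]
      rwa [h4] at h3
    refine hX2 _ hU fun l => ⟨τ l, hτ0 l, ?_⟩
    rw [← hτ l]
    exact hP.1 l
  rw [hScard, Finset.card_eq_sum_card_fiberwise hmaps]
  refine Finset.sum_congr rfl fun x hx => ?_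
  have hxU := hX x hx
  have hrep0 : ∀ l, (x l).rep ≠ 0 := fun l => (x l).rep_nonzero
  -- the sets of the multipliers
  set Ts : ∀ l : ι, Finset K := fun l =>
    (mul_fin (x l).rep (hrep0 l) (bxg K (I l) (t l) (n l + 1) (b l))).toFinset with hTs
  have hTm : ∀ l τ, τ ∈ Ts l ↔ τ ≠ 0 ∧ τ • (x l).rep ∈ bxg K (I l) (t l) (n l + 1) (b l) := by
    intro l τ
    rw [hTs]
    simp only [Set.Finite.mem_toFinset, Set.mem_ofPred_eq]
  have hTc : ∀ l, (Ts l).card = kap K (I l) (t l) (n l + 1) (x l).rep (b l) := by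
    intro l
    unfold kap
    rw [hTs]
    simp only
    rw [Set.ncard_eq_toFinset_card _ (mul_fin (x l).rep (hrep0 l) _)]
  have himage : (S.filter fun P => pt P = x) =
      (Fintype.piFinset Ts).image fun τ l => τ l • (x l).rep := by
    ext P
    rw [Finset.mem_filter, Finset.mem_image, hS, Finset.mem_filter, Fintype.mem_piFinset]
    constructor
    · rintro ⟨⟨hP1, hP2⟩, hP3⟩
      choose τ hτ0 hτ using hrepr P (h2 P hP2)
      rw [hP3] at hτ
      refine ⟨τ, ?_, ?_⟩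
      · rw [Fintype.mem_piFinset]
        intro l
        rw [hTm]
        refine ⟨hτ0 l, ?_⟩
        rw [← hτ l]
        exact hP1 l
      · funext l
        exact (hτ l).symm
    · rintro ⟨τ, hτ, rfl⟩
      rw [Fintype.mem_piFinset] at hτ
      have hτ' : ∀ l, τ l ≠ 0 ∧ τ l • (x l).rep ∈ bxg K (I l) (t l) (n l + 1) (b l) :=
        fun l => (hTm l (τ l)).mp (hτ l)
      have hne : ∀ l, τ l • (x l).rep ≠ 0 := fun l => smul_ne_zero (hτ' l).1 (hrep0 l)
      refine ⟨⟨fun l => (hτ' l).2, h1 τ (fun l => (hτ' l).1) _ hxU⟩, ?_⟩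
      rw [pt_eq _ hne]
      funext l
      conv_rhs => rw [← (x l).mk_rep]
      rw [Projectivization.mk_eq_mk_iff']
      exact ⟨τ l, rfl⟩
  rw [himage, Finset.card_image_of_injective, Fintype.card_piFinset]
  · exact Finset.prod_congr rfl fun l _ => hTc l
  · intro τ τ' h
    funext l
    exact smul_inj _ (hrep0 l) (congrFun h l)

end

end Pool.Agent.Q166.EO
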