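import Pool.Agent.Q166.EO.GG1

/-!
# Project EO of helper35, job EO-GG, part 2: the identity for the mean
-/

set_option autoImplicit false
set_option linter.unusedSectionVars false

open NumberField Finset MeasureTheory
open Pool.Agent.Q35.MM (bx dg mem_bx Pts)
open Pool.Agent.Q35.SM (Vs)
open Pool.Agent.Q35.EO

namespace Pool.Agent.Q166.EO

section

variable {K : Type} [Field K] [NumberField K] {Ω : Type} [MeasurableSpace Ω]

/-- The number of the multiples is a bounded measurable function of the shape. -/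
theorem kap_int (μ : Measure Ω) [IsFiniteMeasure μ] (J : Ideal (𝓞 K))
    (T : Ω → (K →+* ℂ) → ℝ) (c0 : ℝ) (hT : ∀ ζ, Shp c0 (T ζ))
    (hTm : ∀ φ, Measurable fun ζ => T ζ φ) (m : ℕ) (v : Fin m → K) (hv : v ≠ 0) (b : ℕ) :
    Integrable (fun ζ => ((kap K J (T ζ) m v b : ℕ) : ℝ)) μ := by
  classical
  set B := ⌈c0 * b⌉₊ with hB
  set F : Finset K := (mul_fin v hv (bx K m B)).toFinset with hF
  have hFm : ∀ τ, τ ∈ F ↔ τ ≠ 0 ∧ τ • v ∈ bx K m B := by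
    intro τ
    rw [hF, Set.Finite.mem_toFinset, Set.mem_ofPred_eq]
  have hk : ∀ ζ, ((kap K J (T ζ) m v b : ℕ) : ℝ) =
      ∑ τ ∈ F, if τ • v ∈ bxg K J (T ζ) m b then (1 : ℝ) else 0 := by
    intro ζ
    rw [Finset.sum_boole]
    congr 1
    unfold kap
    rw [← Set.ncard_coe_finset]
    congr 1
    ext τ
    rw [Finset.coe_filter, Set.mem_ofPred_eq, Set.mem_ofPred_eq, hFm]
    constructor
    · rintro ⟨h1, h2⟩
      exact ⟨⟨h1, bxg_sub_bx (hT ζ) (Nat.le_ceil _) h2⟩, h2⟩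
    · rintro ⟨⟨h1, -⟩, h2⟩
      exact ⟨h1, h2⟩
  have hmeas : ∀ τ : K, MeasurableSet {ζ | τ • v ∈ bxg K J (T ζ) m b} := by
    intro τ
    have h1 : {ζ | τ • v ∈ bxg K J (T ζ) m b} = ⋂ a, ({ζ : Ω | ∃ y ∈ J,
        algebraMap (𝓞 K) K y = (τ • v) a} ∩ ⋂ φ : K →+* ℂ, {ζ | ‖φ ((τ • v) a)‖ ≤ T ζ φ * b}) := by
      ext ζ
      simp only [Set.mem_ofPred_eq, Set.mem_iInter, Set.mem_inter_iff]
      exact mem_bxg
    rw [h1]
    refine MeasurableSet.iInter fun a => MeasurableSet.inter (MeasurableSet.const _)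
      (MeasurableSet.iInter fun φ => measurableSet_le measurable_const ((hTm φ).mul_const _))
  have hmeas2 : Measurable fun ζ => ((kap K J (T ζ) m v b : ℕ) : ℝ) := by
    simp only [hk]
    refine Finset.measurable_sum _ fun τ _ => ?_
    exact Measurable.ite (hmeas τ) measurable_const measurable_const
  refine Integrable.of_bound hmeas2.aestronglyMeasurable (F.card : ℝ)
    (Filter.Eventually.of_forall fun ζ => ?_)
  rw [Real.norm_of_nonneg (Nat.cast_nonneg _), hk, Finset.sum_boole]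
  exact_mod_cast Finset.card_filter_le _ _

end

section

variable {K : Type} [Field K] [NumberField K] {ι : Type} [Fintype ι] [DecidableEq ι] {n : ι → ℕ}

theorem absNorm_ge {𝔟 : Ideal (𝓞 K)} (h : 𝔟 ≠ ⊥) : (1 : ℝ) ≤ Ideal.absNorm 𝔟 := by
  have : Ideal.absNorm 𝔟 ≠ 0 := by
    rw [Ne, Ideal.absNorm_eq_zero_iff]
    exact h
  exact_mod_cast Nat.one_le_iff_ne_zero.mpr this

theorem low_fin (hNO : Pool.Agent.Q35.LO.S_NO) (β : ℝ) :
    {x : Pts K n | ∀ l, (x l).mulHeight ≤ β}.Finite := by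
  have h1 := hNO K ι n (fun _ => 1) (fun _ => le_rfl) ((max β 1) ^ Fintype.card ι)
  refine h1.subset fun x hx => ?_
  rw [Set.mem_ofPred_eq]
  have h2 : ∏ l, (x l).mulHeight ^ 1 ≤ ∏ _l : ι, max β 1 := by
    refine Finset.prod_le_prod (fun l _ => ?_) fun l _ => ?_
    · rw [pow_one]
      exact (x l).mulHeight_pos.le
    · rw [pow_one]
      exact le_trans (hx l) (le_max_left _ _)
  refine le_trans h2 (le_of_eq ?_)
  rw [Finset.prod_const, Finset.card_univ]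

theorem ideal_fin (β : ℝ) : {𝔟 : Ideal (𝓞 K) | (Ideal.absNorm 𝔟 : ℝ) ≤ β}.Finite := by
  refine (Ideal.finite_setOfPred_absNorm_le (S := 𝓞 K) ⌊β⌋₊).subset fun 𝔟 h𝔟 => ?_
  exact Nat.le_floor h𝔟

theorem c1 (hNO : Pool.Agent.Q35.LO.S_NO) (U : Vs K n → Prop) (β : ι → ℝ) :
    {y ∈ YU U | ∀ l, hh l y ≤ β l}.Finite := by
  set β0 : ℝ := ∑ l, |β l| with hβ0
  have hβ : ∀ l, β l ≤ β0 := fun l => le_trans (le_abs_self _)
    (Finset.single_le_sum (f := fun l => |β l|) (fun _ _ => abs_nonneg _) (Finset.mem_univ l))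
  have h1 : {y ∈ YU U | ∀ l, hh l y ≤ β l} ⊆ {x : Pts K n | ∀ l, (x l).mulHeight ≤ β0} ×ˢ
      {𝔟 : ι → Ideal (𝓞 K) | ∀ l, 𝔟 l ∈ {𝔟 : Ideal (𝓞 K) | (Ideal.absNorm 𝔟 : ℝ) ≤ β0}} := by
    rintro ⟨x, 𝔟⟩ ⟨⟨_, h2⟩, h3⟩
    rw [Set.mem_prod]
    constructor
    · intro l
      have h4 := h3 l
      unfold hh at h4
      have h5 := absNorm_ge (h2 l)
      have h6 := (x l).mulHeight_pos
      simp only at h4 ⊢
      have h7 := mul_le_mul_of_nonneg_right h5 h6.le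
      have := hβ l
      linarith
    · intro l
      have h4 := h3 l
      unfold hh at h4
      have h5 := absNorm_ge (h2 l)
      have h6 := (x l).one_le_mulHeight
      simp only [Set.mem_ofPred_eq] at h4 ⊢
      have h7 := mul_le_mul_of_nonneg_left h6 (by linarith : (0 : ℝ) ≤ Ideal.absNorm (𝔟 l))
      have := hβ l
      linarith
  refine Set.Finite.subset (Set.Finite.prod (low_fin hNO β0) ?_) h1
  exact Set.Finite.pi' fun _ => ideal_fin β0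

/-- The mean as a finite sum. -/
theorem gg_sum (hNO : Pool.Agent.Q35.LO.S_NO) (U : Vs K n → Prop) (q d : ℕ) (b : ι → ℕ)
    (X : Finset (Pts K n)) (hX : ∀ x ∈ X, U fun i => (x i).rep)
    (hX3 : ∀ x : Pts K n, (U fun i => (x i).rep) →
      (∀ l, (x l).mulHeight ≤ (b l : ℝ) ^ d) → x ∈ X) :
    GG (YU U) hh q d b = ∑ x ∈ X, ∏ l, ∑ᶠ 𝔟 ∈ {𝔟 : Ideal (𝓞 K) | 𝔟 ≠ ⊥ ∧
      (Ideal.absNorm 𝔟 : ℝ) * Height.mulHeight (x l).rep ≤ (b l : ℝ) ^ d},
      Real.log ((b l : ℝ) ^ d / ((Ideal.absNorm 𝔟 : ℝ) * Height.mulHeight (x l).rep)) ^ q := by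
  classical
  have hrep : ∀ (x : Pts K n) l, Height.mulHeight (x l).rep = (x l).mulHeight := by
    intro x l
    conv_rhs => rw [← (x l).mk_rep]
    rw [Projectivization.mulHeight_mk]
  simp only [hrep]
  have hIfin : ∀ (x : Pts K n) l, {𝔟 : Ideal (𝓞 K) | 𝔟 ≠ ⊥ ∧
      (Ideal.absNorm 𝔟 : ℝ) * (x l).mulHeight ≤ (b l : ℝ) ^ d}.Finite := by
    intro x l
    refine (ideal_fin (K := K) ((b l : ℝ) ^ d)).subset ?_
    rintro 𝔟 ⟨h1, h2⟩
    have h5 := absNorm_ge h1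
    have h6 := (x l).one_le_mulHeight
    have h7 := mul_le_mul_of_nonneg_left h6 (by linarith : (0 : ℝ) ≤ Ideal.absNorm 𝔟)
    rw [Set.mem_ofPred_eq]
    linarith
  have hYfin := c1 hNO U fun l => (b l : ℝ) ^ d
  unfold GG
  rw [finsum_mem_eq_finite_toFinset_sum _ hYfin]
  have h1 : ∀ x ∈ X, ∏ l, ∑ᶠ 𝔟 ∈ {𝔟 : Ideal (𝓞 K) | 𝔟 ≠ ⊥ ∧
      (Ideal.absNorm 𝔟 : ℝ) * (x l).mulHeight ≤ (b l : ℝ) ^ d},
      Real.log ((b l : ℝ) ^ d / ((Ideal.absNorm 𝔟 : ℝ) * (x l).mulHeight)) ^ q =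
      ∑ 𝔟 ∈ Fintype.piFinset fun l => (hIfin x l).toFinset,
        ∏ l, Real.log ((b l : ℝ) ^ d / hh l (x, 𝔟)) ^ q := by
    intro x _
    have h2 : ∀ l, ∑ᶠ 𝔟 ∈ {𝔟 : Ideal (𝓞 K) | 𝔟 ≠ ⊥ ∧
        (Ideal.absNorm 𝔟 : ℝ) * (x l).mulHeight ≤ (b l : ℝ) ^ d},
        Real.log ((b l : ℝ) ^ d / ((Ideal.absNorm 𝔟 : ℝ) * (x l).mulHeight)) ^ q =
        ∑ 𝔟 ∈ (hIfin x l).toFinset,
          Real.log ((b l : ℝ) ^ d / ((Ideal.absNorm 𝔟 : ℝ) * (x l).mulHeight)) ^ q :=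
      fun l => finsum_mem_eq_finite_toFinset_sum _ (hIfin x l)
    simp only [h2]
    rw [Finset.prod_univ_sum]
    rfl
  rw [Finset.sum_congr rfl h1]
  refine Finset.sum_finset_product _ _ _ ?_
  rintro ⟨x, 𝔟⟩
  rw [Set.Finite.mem_toFinset, Fintype.mem_piFinset]
  simp only [Set.Finite.mem_toFinset, Set.mem_ofPred_eq]
  constructor
  · rintro ⟨⟨h2, h3⟩, h4⟩
    refine ⟨hX3 x h2 fun l => ?_, fun l => ⟨h3 l, h4 l⟩⟩
    have h5 := absNorm_ge (h3 l)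
    have h6 := (x l).mulHeight_pos
    have h7 := mul_le_mul_of_nonneg_right h5 h6.le
    have h8 : (Ideal.absNorm (𝔟 l) : ℝ) * (x l).mulHeight ≤ (b l : ℝ) ^ d := h4 l
    linarith
  · rintro ⟨h2, h3⟩
    exact ⟨⟨hX x h2, fun l => (h3 l).1⟩, fun l => (h3 l).2⟩

/-- A finite set of points which is large enough. -/
theorem exX (hNO : Pool.Agent.Q35.LO.S_NO) (U : Vs K n → Prop) (c0 : ℝ) (d : ℕ) (b : ι → ℕ) :
    ∃ X : Finset (Pts K n), (∀ x ∈ X, U fun i => (x i).rep) ∧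
      (∀ (I : ι → Ideal (𝓞 K)) (t : ι → (K →+* ℂ) → ℝ), (∀ l, Shp c0 (t l)) →
        ∀ x : Pts K n, (U fun i => (x i).rep) →
        (∀ l, ∃ τ : K, τ ≠ 0 ∧ τ • (x l).rep ∈ bxg K (I l) (t l) (n l + 1) (b l)) → x ∈ X) ∧
      (∀ x : Pts K n, (U fun i => (x i).rep) →
        (∀ l, (x l).mulHeight ≤ (b l : ℝ) ^ d) → x ∈ X) := by
  classical
  have f1 : {x : Pts K n | ∀ l, (x l).mulHeight ≤ ∑ l, (b l : ℝ) ^ d}.Finite := low_fin hNO _
  have f2 : {x : Pts K n | ∀ l, x l ∈ {p : Projectivization K (Fin (n l + 1) → K) |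
      ∃ τ : K, τ ≠ 0 ∧ τ • p.rep ∈ bx K (n l + 1) ⌈c0 * b l⌉₊}}.Finite :=
    Set.Finite.pi' fun l => pts_fin _
  refine ⟨(f1.toFinset ∪ f2.toFinset).filter fun x => U fun i => (x i).rep, ?_, ?_, ?_⟩
  · intro x hx
    exact (Finset.mem_filter.mp hx).2
  · intro I t ht x hU hx
    rw [Finset.mem_filter, Finset.mem_union]
    refine ⟨Or.inr ?_, hU⟩
    rw [Set.Finite.mem_toFinset]
    intro l
    obtain ⟨τ, hτ0, hτ⟩ := hx l
    exact ⟨τ, hτ0, bxg_sub_bx (ht l) (Nat.le_ceil _) hτ⟩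
  · intro x hU hx
    rw [Finset.mem_filter, Finset.mem_union]
    refine ⟨Or.inl ?_, hU⟩
    rw [Set.Finite.mem_toFinset]
    intro l
    exact le_trans (hx l) (Finset.single_le_sum (f := fun l => (b l : ℝ) ^ d)
      (fun _ _ => by positivity) (Finset.mem_univ l))

end

end Pool.Agent.Q166.EO
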