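import Pool.Agent.Q35.EO.Stm
import Pool.Agent.Q166.EO.Count

/-!
# Project EO of helper35, job EO-LAT
-/

set_option autoImplicit false

open NumberField Finset
open Pool.Agent.Q35.MM (bx dg mem_bx)
open Pool.Agent.Q35.EO

namespace Pool.Agent.Q166.EO

theorem pow_bound (y : ℝ) (hy : 0 ≤ y) (hy2 : y ≤ 2) (R : ℕ) :
    (1 + y) ^ R - 1 ≤ y * (R * 3 ^ R) := by
  have h3 : ∀ R : ℕ, (1 + y) ^ R ≤ 3 ^ R := fun R => pow_le_pow_left₀ (by linarith) (by linarith) R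
  induction R with
  | zero => simp
  | succ R ih =>
    have h1 : (1 + y) ^ (R + 1) - 1 = ((1 + y) ^ R - 1) + y * (1 + y) ^ R := by ring
    have h2 := mul_le_mul_of_nonneg_left (h3 R) hy
    have h4 : (3 : ℝ) ^ R ≤ 3 ^ (R + 1) := by
      rw [pow_succ]
      nlinarith [pow_pos (show (0 : ℝ) < 3 by norm_num) R]
    have h5 : (0 : ℝ) ≤ (R : ℝ) := Nat.cast_nonneg _
    have h6 : y * ((R : ℝ) * 3 ^ R) ≤ y * ((R : ℝ) * 3 ^ (R + 1)) := by gcongr
    have h7 : y * (3 : ℝ) ^ R ≤ y * 3 ^ (R + 1) := by gcongr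
    rw [h1]
    push_cast
    linarith

theorem ratio (M D B ρ g h : ℝ) (R : ℕ) (hD : 0 < D) (hM : 0 < M) (h2D : 2 * D ≤ ρ) (hρB : ρ ≤ B)
    (g1 : M * (ρ - D) ^ R ≤ g) (g2 : g ≤ M * (ρ + D) ^ R)
    (h1 : M * (B - D) ^ R ≤ h) (h2 : h ≤ M * (B + D) ^ R) :
    |h * ρ ^ R - g * B ^ R| ≤ 4 * (R * 3 ^ R) * (D / ρ) * (g * B ^ R) := by
  have hρ : 0 < ρ := by linarith
  have hB : 0 < B := by linarith
  obtain ⟨x, hx⟩ : ∃ x : ℝ, x = D / ρ := ⟨_, rfl⟩
  have hx0 : 0 < x := by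
    rw [hx]
    positivity
  have hx2 : x ≤ 1 / 2 := by
    rw [hx, div_le_iff₀ hρ]
    linarith
  have hDx : D = x * ρ := by
    rw [hx]
    field_simp
  have hDB : D ≤ x * B := by
    rw [hDx]
    gcongr
  have e1 : ρ - D = ρ * (1 - x) := by
    rw [hDx]
    ring
  have e2 : ρ + D = ρ * (1 + x) := by
    rw [hDx]
    ring
  rw [e1, mul_pow] at g1
  rw [e2, mul_pow] at g2
  have hg0 : 0 ≤ g := by
    refine le_trans ?_ g1
    have : 0 ≤ 1 - x := by linarith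
    positivity
  have k1 : M * (B ^ R * (1 - x) ^ R) ≤ h := by
    refine le_trans ?_ h1
    rw [← mul_pow]
    have : 0 ≤ B * (1 - x) := mul_nonneg hB.le (by linarith)
    have h3 : B * (1 - x) ≤ B - D := by linarith
    gcongr
  have k2 : h ≤ M * (B ^ R * (1 + x) ^ R) := by
    refine le_trans h2 ?_
    rw [← mul_pow]
    have h3 : B + D ≤ B * (1 + x) := by linarith
    gcongr
  have hgB : 0 ≤ g * B ^ R := by positivity
  rw [← hx, abs_le]
  constructor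
  · -- lower
    have l1 : ((1 + x) * (1 - 2 * x)) ^ R ≤ (1 - x) ^ R := by
      refine pow_le_pow_left₀ (mul_nonneg (by linarith) (by linarith)) ?_ R
      nlinarith
    have l2 : 1 + (R : ℝ) * (-(2 * x)) ≤ (1 - 2 * x) ^ R := by
      have := one_add_mul_le_pow (a := -(2 * x)) (by linarith) R
      rwa [← sub_eq_add_neg] at this
    have l3 : g * B ^ R * (1 - 2 * x) ^ R ≤ h * ρ ^ R := by
      have l4 : M * (B ^ R * ((1 + x) * (1 - 2 * x)) ^ R) ≤ h := by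
        refine le_trans ?_ k1
        gcongr
      have l5 := mul_le_mul_of_nonneg_right l4 (show 0 ≤ ρ ^ R by positivity)
      refine le_trans ?_ l5
      have l6 : 0 ≤ (1 - 2 * x) ^ R := pow_nonneg (by linarith) R
      have l7 := mul_le_mul_of_nonneg_right g2 (mul_nonneg (show 0 ≤ B ^ R by positivity) l6)
      rw [mul_pow]
      linarith
    have l8 := mul_le_mul_of_nonneg_left l2 hgB
    have l9 : (R : ℝ) * 1 ≤ R * 3 ^ R := by
      have : (1 : ℝ) ≤ 3 ^ R := one_le_pow₀ (by norm_num)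
      gcongr
    have l10 := mul_le_mul_of_nonneg_right l9 (mul_nonneg hx0.le hgB)
    nlinarith [mul_nonneg (Nat.cast_nonneg (α := ℝ) R) (mul_nonneg hx0.le hgB)]
  · -- upper
    have l1 : (1 + x) ^ R ≤ ((1 - x) * (1 + 4 * x)) ^ R := by
      refine pow_le_pow_left₀ (by linarith) ?_ R
      nlinarith
    have l3 : h * ρ ^ R ≤ g * B ^ R * (1 + 4 * x) ^ R := by
      have l4 : h ≤ M * (B ^ R * ((1 - x) * (1 + 4 * x)) ^ R) := by
        refine le_trans k2 ?_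
        gcongr
      have l5 := mul_le_mul_of_nonneg_right l4 (show 0 ≤ ρ ^ R by positivity)
      refine le_trans l5 ?_
      have l6 : 0 ≤ (1 + 4 * x) ^ R := pow_nonneg (by linarith) R
      have l7 := mul_le_mul_of_nonneg_right g1 (mul_nonneg (show 0 ≤ B ^ R by positivity) l6)
      rw [mul_pow]
      linarith
    have l8 := mul_le_mul_of_nonneg_left (pow_bound (4 * x) (by linarith) (by linarith) R) hgB
    linarith

theorem lat : S_LAT := by
  intro K _ _ N r I c0 hI hc0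
  classical
  obtain ⟨q0, hq0, hq0I⟩ : ∃ q0 : ℕ, 1 ≤ q0 ∧ ((q0 : ℕ) : 𝓞 K) ∈ I := by
    refine ⟨Ideal.absNorm I, ?_, Ideal.absNorm_mem I⟩
    have : Ideal.absNorm I ≠ 0 := by
      rw [Ne, Ideal.absNorm_eq_zero_iff]
      exact hI
    omega
  obtain ⟨Ω, hΩ⟩ : ∃ Ω : ℝ, Ω = ∑ φ : K →+* ℂ, ∑ k, ‖φ (integralBasis K k)‖ := ⟨_, rfl⟩
  have hΩ0 : 0 ≤ Ω := by
    rw [hΩ]
    positivity
  have hΩ1 : ∀ (φ : K →+* ℂ) k, ‖φ (integralBasis K k)‖ ≤ Ω := by
    intro φ k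
    rw [hΩ]
    refine le_trans ?_ (Finset.single_le_sum (f := fun φ : K →+* ℂ =>
      ∑ k, ‖φ (integralBasis K k)‖) (fun _ _ => Finset.sum_nonneg fun _ _ => norm_nonneg _)
      (Finset.mem_univ φ))
    exact Finset.single_le_sum (f := fun k => ‖φ (integralBasis K k)‖)
      (fun _ _ => norm_nonneg _) (Finset.mem_univ k)
  obtain ⟨R, hR⟩ : ∃ R : ℕ, R = dg K * r := ⟨_, rfl⟩
  obtain ⟨C1, hC1⟩ : ∃ C1 : ℝ, C1 = R * q0 * Ω * c0 + 1 := ⟨_, rfl⟩
  have hq0' : (0 : ℝ) < q0 := by exact_mod_cast hq0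
  have hC11 : 1 ≤ C1 := by
    rw [hC1]
    have : 0 ≤ (R : ℝ) * q0 * Ω * c0 := by positivity
    linarith
  refine ⟨4 * (R * 3 ^ R) * C1 + 2 * C1, ?_, ?_⟩
  · have : 0 ≤ 4 * ((R : ℝ) * 3 ^ R) * C1 := by positivity
    linarith
  intro t ht V σ ρ B hV hσ hspan hρ hρB
  have hσ0 : (0 : ℝ) < σ := by exact_mod_cast hσ
  have htpos : ∀ φ, 0 < t φ := fun φ => lt_of_lt_of_le (by positivity) (ht φ).1
  -- a basis of small vectors
  obtain ⟨b, hbS, hbspan, hbli⟩ :=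
    exists_linearIndependent K {x : Fin N → K | x ∈ V ∧ x ∈ bx K N σ}
  have hbV : ∀ x ∈ b, x ∈ V := fun x hx => (hbS hx).1
  have hspanb : Submodule.span K b = V :=
    le_antisymm (Submodule.span_le.mpr hbV) (hspan.trans (le_of_eq hbspan.symm))
  have hbfin : Finite b := hbli.finite
  have : Fintype b := Fintype.ofFinite b
  obtain ⟨v', hv'⟩ : ∃ v' : b → V, v' = fun x => ⟨x, hbV x x.2⟩ := ⟨_, rfl⟩
  have hv'li : LinearIndependent K v' := by
    refine LinearIndependent.of_comp V.subtype ?_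
    rw [hv']
    exact hbli
  have hv'span : ⊤ ≤ Submodule.span K (Set.range v') := by
    have h1 : (Submodule.span K (Set.range v')).map V.subtype = V := by
      rw [Submodule.map_span, ← Set.range_comp]
      have : (V.subtype ∘ v') = ((↑) : b → Fin N → K) := by
        rw [hv']
        rfl
      rw [this, Subtype.range_coe, hspanb]
    rintro ⟨x, hx⟩ -
    have hx' : x ∈ (Submodule.span K (Set.range v')).map V.subtype := by
      rw [h1]
      exact hx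
    obtain ⟨y, hy, hyx⟩ := hx'
    have : y = ⟨x, hx⟩ := Subtype.ext hyx
    rw [← this]
    exact hy
  let bV : Module.Basis b K V := Module.Basis.mk hv'li hv'span
  have hbVa : ∀ x : b, (bV x : Fin N → K) = x := by
    intro x
    rw [Module.Basis.mk_apply, hv']
  have hcard : Fintype.card b = r := by rw [← hV, Module.finrank_eq_card_basis bV]
  let bQ : Module.Basis (Module.Free.ChooseBasisIndex ℤ (𝓞 K) × b) ℚ V :=
    ((integralBasis K).smulTower bV).isUnitSMul (w := fun _ => (q0 : ℚ))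
      (fun _ => isUnit_iff_ne_zero.mpr (by exact_mod_cast hq0'.ne'))
  have hcardι : Fintype.card (Module.Free.ChooseBasisIndex ℤ (𝓞 K) × b) = R := by
    rw [Fintype.card_prod, hcard, hR, ← Module.finrank_eq_card_basis (integralBasis K)]
  obtain ⟨u, hu⟩ : ∃ u : Module.Free.ChooseBasisIndex ℤ (𝓞 K) × b → (Fin N → K),
    u = fun j => ((bQ j : V) : Fin N → K) := ⟨_, rfl⟩
  have hua : ∀ j a, u j a = (q0 : K) * (integralBasis K j.1 * (j.2 : Fin N → K) a) := by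
    intro j a
    rw [hu]
    simp only
    have h1 : bQ j = (q0 : ℚ) • (integralBasis K j.1 • bV j.2) := by
      rw [Module.Basis.isUnitSMul_apply, Module.Basis.smulTower_apply]
    rw [h1]
    have h2 : (((q0 : ℚ) • (integralBasis K j.1 • bV j.2) : V) : Fin N → K) a =
        (q0 : ℚ) • (integralBasis K j.1 * ((bV j.2 : V) : Fin N → K) a) := rfl
    rw [h2, hbVa, Rat.smul_def]
    push_cast
    rfl
  -- the coordinates
  obtain ⟨gl, hgl⟩ := LinearMap.exists_leftInverse_of_injective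
    (V.subtype.restrictScalars ℚ : V →ₗ[ℚ] (Fin N → K))
    (LinearMap.ker_eq_bot.mpr (Submodule.injective_subtype V))
  have hgl' : ∀ y : V, gl (y : Fin N → K) = y := fun y => LinearMap.congr_fun hgl y
  obtain ⟨q, hq⟩ : ∃ q : (Fin N → K) →ₗ[ℚ] (Module.Free.ChooseBasisIndex ℤ (𝓞 K) × b → ℚ),
    q = (bQ.equivFun : V →ₗ[ℚ] _) ∘ₗ gl := ⟨_, rfl⟩
  have hqV : ∀ y : V, q (y : Fin N → K) = bQ.equivFun y := by
    intro y
    rw [hq, LinearMap.comp_apply, hgl']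
    rfl
  -- the lattice
  let L : AddSubgroup (Fin N → K) :=
    { carrier := {x | x ∈ V ∧ ∀ a, ∃ y ∈ I, algebraMap (𝓞 K) K y = x a}
      add_mem' := by
        rintro x x' ⟨h1, h2⟩ ⟨h3, h4⟩
        refine ⟨V.add_mem h1 h3, fun a => ?_⟩
        obtain ⟨y, hy, hy'⟩ := h2 a
        obtain ⟨z, hz, hz'⟩ := h4 a
        exact ⟨y + z, I.add_mem hy hz, by rw [map_add, hy', hz']; rfl⟩
      zero_mem' := ⟨V.zero_mem, fun a => ⟨0, I.zero_mem, by simp⟩⟩
      neg_mem' := by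
        rintro x ⟨h1, h2⟩
        refine ⟨V.neg_mem h1, fun a => ?_⟩
        obtain ⟨y, hy, hy'⟩ := h2 a
        exact ⟨-y, I.neg_mem hy, by rw [map_neg, hy']; rfl⟩ }
  have hLm : ∀ x, x ∈ L ↔ x ∈ V ∧ ∀ a, ∃ y ∈ I, algebraMap (𝓞 K) K y = x a := fun x => Iff.rfl
  have h_L : ∀ x ∈ L, x = ∑ j, q x j • u j := by
    intro x hx
    have hxV := ((hLm x).mp hx).1
    have e : q x = bQ.equivFun ⟨x, hxV⟩ := hqV ⟨x, hxV⟩
    have h1 := bQ.sum_equivFun ⟨x, hxV⟩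
    rw [← e] at h1
    have h2 : ((∑ j, q x j • bQ j : V) : Fin N → K) = x := by rw [h1]
    have h3 : ((∑ j, q x j • bQ j : V) : Fin N → K) = ∑ j, q x j • u j := by
      rw [Submodule.coe_sum, hu]
      rfl
    exact h2.symm.trans h3
  have huL : ∀ j, u j ∈ L := by
    intro j
    rw [hLm]
    refine ⟨by rw [hu]; exact (bQ j).2, fun a => ?_⟩
    have hint : IsIntegral ℤ ((j.2 : Fin N → K) a) := ((mem_bx.mp (hbS j.2.2).2) a).1
    obtain ⟨y, hy⟩ : ∃ y : 𝓞 K, algebraMap (𝓞 K) K y = (j.2 : Fin N → K) a := ⟨⟨_, hint⟩, rfl⟩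
    refine ⟨(q0 : 𝓞 K) * (RingOfIntegers.basis K j.1 * y), I.mul_mem_right _ hq0I, ?_⟩
    rw [hua, map_mul, map_mul, map_natCast, ← integralBasis_apply, hy]
  have hqz : ∀ z : Module.Free.ChooseBasisIndex ℤ (𝓞 K) × b → ℤ,
      q (∑ j, z j • u j) = fun j => (z j : ℚ) := by
    intro z
    have h1 : (∑ j, z j • u j) = ((∑ j, (z j : ℚ) • bQ j : V) : Fin N → K) := by
      rw [Submodule.coe_sum, hu]
      refine Finset.sum_congr rfl fun j _ => ?_
      rw [← Int.cast_smul_eq_zsmul ℚ]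
      rfl
    rw [h1, hqV, ← bQ.equivFun_symm_apply, LinearEquiv.apply_symm_apply]
  let ψ : (K →+* ℂ) × Fin N → (Fin N → K) →ₗ[ℚ] ℂ := fun k =>
    (k.1.toRatAlgHom.toLinearMap) ∘ₗ (LinearMap.proj k.2)
  have hψ : ∀ k x, ψ k x = k.1 (x k.2) := fun _ _ => rfl
  have hsets : ∀ Bn : ℕ, {x | x ∈ L ∧ ∀ k : (K →+* ℂ) × Fin N, ‖ψ k x‖ ≤ t k.1 * (Bn : ℝ)} =
      ↑((bxg K I t N Bn).filter fun x => x ∈ V) := by
    intro Bn
    ext x
    rw [Finset.coe_filter, Set.mem_ofPred_eq, Set.mem_ofPred_eq, hLm, mem_bxg]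
    constructor
    · rintro ⟨⟨h1, h2⟩, h3⟩
      exact ⟨fun a => ⟨h2 a, fun φ => h3 (φ, a)⟩, h1⟩
    · rintro ⟨h1, h2⟩
      exact ⟨⟨h2, fun a => (h1 a).1⟩, fun k => (h1 k.2).2 k.1⟩
  have hnug : ∀ Bn : ℕ, (nug K I t N V Bn : ℝ) =
      ({x | x ∈ L ∧ ∀ k : (K →+* ℂ) × Fin N, ‖ψ k x‖ ≤ t k.1 * (Bn : ℝ)}.ncard : ℝ) := by
    intro Bn
    rw [hsets, Set.ncard_coe_finset]
    unfold nug
    congr!
  have hfin : ∀ Bs : ℝ,
      {x | x ∈ L ∧ ∀ k : (K →+* ℂ) × Fin N, ‖ψ k x‖ ≤ t k.1 * Bs}.Finite := by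
    intro Bs
    have h1 : {x | x ∈ L ∧ ∀ k : (K →+* ℂ) × Fin N, ‖ψ k x‖ ≤ t k.1 * Bs} ⊆
        {x | x ∈ L ∧ ∀ k : (K →+* ℂ) × Fin N, ‖ψ k x‖ ≤ t k.1 * ((⌈Bs⌉₊ : ℕ) : ℝ)} := by
      rintro x ⟨hx1, hx2⟩
      refine ⟨hx1, fun k => le_trans (hx2 k) ?_⟩
      exact mul_le_mul_of_nonneg_left (Nat.le_ceil Bs) (htpos k.1).le
    refine Set.Finite.subset ?_ h1
    rw [hsets]
    exact Finset.finite_toSet _
  have hD1 : 1 ≤ C1 * σ := by
    have : (1 : ℝ) ≤ σ := by exact_mod_cast hσ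
    nlinarith
  have hDu : ∀ k : (K →+* ℂ) × Fin N, ∑ j, ‖ψ k (u j)‖ ≤ t k.1 * (C1 * σ) := by
    intro k
    have h1 : ∀ j, ‖ψ k (u j)‖ ≤ q0 * Ω * σ := by
      intro j
      rw [hψ, hua, map_mul, map_mul, map_natCast, norm_mul, norm_mul]
      have h2 : ‖((q0 : ℕ) : ℂ)‖ = q0 := by simp
      have h3 : ‖k.1 ((j.2 : Fin N → K) k.2)‖ ≤ σ := ((mem_bx.mp (hbS j.2.2).2) k.2).2 k.1
      have h4 := hΩ1 k.1 j.1
      rw [h2]
      calc (q0 : ℝ) * (‖k.1 (integralBasis K j.1)‖ * ‖k.1 ((j.2 : Fin N → K) k.2)‖)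
          ≤ q0 * (Ω * σ) := by gcongr
        _ = q0 * Ω * σ := by ring
    refine le_trans (Finset.sum_le_sum fun j _ => h1 j) ?_
    rw [Finset.sum_const, Finset.card_univ, hcardι, nsmul_eq_mul, hC1]
    have h5 : 1 ≤ c0 * t k.1 := by
      have := (ht k.1).1
      rw [div_le_iff₀ (by linarith)] at this
      linarith
    have h6 : 0 ≤ (R : ℝ) * (q0 * Ω * σ) := by positivity
    have h7 := mul_le_mul_of_nonneg_left h5 h6
    have h8 : 0 ≤ t k.1 * σ := mul_nonneg (htpos k.1).le hσ0.le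
    linarith
  obtain ⟨M, hM0, hM⟩ := boxcount u q L h_L huL hqz ψ (fun k => t k.1) (fun k => htpos k.1) hfin
    (C1 * σ) hD1 hDu
  rw [hcardι] at hM
  have hRpos : 0 ≤ 4 * ((R : ℝ) * 3 ^ R) * C1 := by positivity
  have h2D : 2 * (C1 * σ) ≤ ρ := by
    have := mul_nonneg hRpos hσ0.le
    linarith
  have hρB' : (ρ : ℝ) ≤ B := by exact_mod_cast hρB
  have hρ0 : (0 : ℝ) < ρ := by linarith
  have b1 := hM ρ (by linarith)
  have b2 := hM B (by linarith)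
  rw [← hnug] at b1 b2
  have hfinal := ratio M (C1 * σ) B ρ _ _ R (by linarith) hM0 h2D hρB' b1.1 b1.2 b2.1 b2.2
  rw [← hR]
  refine le_trans hfinal ?_
  have h9 : 0 ≤ (nug K I t N V ρ : ℝ) * (B : ℝ) ^ R := by positivity
  refine mul_le_mul_of_nonneg_right ?_ h9
  have h10 : 4 * ((R : ℝ) * 3 ^ R) * (C1 * σ / ρ) = 4 * ((R : ℝ) * 3 ^ R) * C1 * (σ / ρ) := by ring
  rw [h10]
  refine mul_le_mul_of_nonneg_right ?_ (by positivity)
  linarith

end Pool.Agent.Q166.EO
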